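import Pool.Agent.helper53.SP4.Spec

/-! # Project SP4, row S4S -/

set_option autoImplicit false

namespace Pool.Agent.SP4

open Pool.Agent.GS

section
variable {F : Type} [Field F]

theorem S4S_al (u v w : Fin 4 → F) : B (u + v) w = B u w + B v w := by
  simp only [B, Pi.add_apply]; ring

theorem S4S_sl (c : F) (u w : Fin 4 → F) : B (c • u) w = c * B u w := by
  simp only [B, Pi.smul_apply, smul_eq_mul]; ring

theorem S4S_ar (u v w : Fin 4 → F) : B u (v + w) = B u v + B u w := by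
  simp only [B, Pi.add_apply]; ring

theorem S4S_sr (c : F) (u w : Fin 4 → F) : B u (c • w) = c * B u w := by
  simp only [B, Pi.smul_apply, smul_eq_mul]; ring

theorem S4S_c (u w : Fin 4 → F) : B u w = B w u := by
  simp only [B]; ring

theorem S4S_s [CharP F 2] (u : Fin 4 → F) : B u u = 0 := by
  have h2 : (2 : F) = 0 := CharTwo.two_eq_zero
  simp only [B]
  linear_combination (u 0 * u 3 + u 1 * u 2) * h2

theorem S4S_ti [CharP F 2] (a b m m' : Fin 4 → F) (h : Pl a b) (hm : m ∈ Sn a b) (hm' : m' ∈ Sn a b) :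
    B m m' = 0 := by
  obtain ⟨p, q, rfl⟩ := Submodule.mem_span_pair.mp hm
  obtain ⟨r, s, rfl⟩ := Submodule.mem_span_pair.mp hm'
  have h1 := h.2
  simp only [S4S_al, S4S_sl, S4S_ar, S4S_sr, S4S_s, h1, S4S_c b a]
  ring

theorem S4S_shift [CharP F 2] (u b : Fin 4 → F) (c : F) (t : SG F) (h : IsA u b t) :
    IsA u (b + c • u) t := by
  have h2 : (2 : F) = 0 := CharTwo.two_eq_zero
  intro w
  rw [h w, S4S_al, S4S_sl]
  ext i
  simp only [Pi.add_apply, Pi.smul_apply, smul_eq_mul]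
  linear_combination (-(c * B u w * u i)) * h2

theorem S4S_left (a b : Fin 4 → F) (h : Pl a b) : a ≠ 0 := by
  have := h.1.ne_zero 0
  simpa using this

theorem S4S_right (a b : Fin 4 → F) (h : Pl a b) : b ≠ 0 := by
  have := h.1.ne_zero 1
  simpa using this

end

theorem S4S_img (hS4B : S4B_stmt) (hS4U : S4U_stmt) (hS4X : S4X_stmt) (hS4M : S4M_stmt)
    (F : Type) [Field F] [CharP F 2] [Finite F] (x : MulAut (SG F)) (hx : Sw x) (hxx : x * x = 1)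
    (u b u' b' e f : Fin 4 → F) (h1 : Fl x u b) (h2 : Fl x u' b') (he : e ∈ Sn u b) (he0 : e ≠ 0)
    (heu : B e u' = 0) (hf : ∀ m, m ∈ Sn u' b' → B u m = 0 → ∃ c : F, m = c • f)
    (hfe : B f e ≠ 0) : ∃ μ : F, μ ≠ 0 ∧ ∀ t, IsT e t → IsA (μ • u) f (x t) := by
  obtain ⟨-, -, -, -, hexT, -, -, -, huni, -, -, -⟩ := hS4B F
  have hxx' : ∀ t, x (x t) = t := fun t => by
    have : (x * x) t = t := by rw [hxx]; rfl
    exact this
  obtain ⟨t0, ht0, -⟩ := hexT e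
  obtain ⟨tu, htu, -⟩ := hexT u
  obtain ⟨tu', htu', -⟩ := hexT u'
  obtain ⟨c, d, hcd, hA⟩ := (hS4X F x hx).1 e t0 he0 ht0
  have hu0 : u ≠ 0 := S4S_left u b h1.1
  have hu0' : u' ≠ 0 := S4S_left u' b' h2.1
  have hAu := h1.2 tu htu
  have hAu' := h2.2 tu' htu'
  have m1 := hS4M F e e u b c d t0 t0 (x tu) (x t0) he0 he0 h1.1 hcd ht0 ht0 hAu hA
  have c1 := m1.2.1.mpr he
  have c1' : tu * x t0 = x t0 * tu := by
    have := congrArg x c1
    rw [map_mul, map_mul, hxx'] at this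
    exact this.symm
  have m2 := hS4M F u u c d c d tu tu (x t0) (x t0) hu0 hu0 hcd hcd htu htu hA hA
  have hucd : u ∈ Sn c d := m2.2.1.mp c1'
  have m3 := hS4M F e u' c d u' b' t0 tu' (x t0) (x tu') he0 hu0' hcd h2.1 ht0 htu' hA hAu'
  have c3 := m3.1.mpr heu
  have c3' : x t0 * x tu' = x tu' * x t0 := by
    have := congrArg x c3
    rw [map_mul, map_mul] at this
    exact this
  obtain ⟨m, hm0, hmcd, hmu'⟩ := m3.2.2.mp c3'
  have hBum : B u m = 0 := S4S_ti c d u m hcd hucd hmcd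
  obtain ⟨k, hk⟩ := hf m hmu' hBum
  have hk0 : k ≠ 0 := by
    rintro rfl
    exact hm0 (by rw [hk, zero_smul])
  have hfcd : f ∈ Sn c d := by
    have : f = k⁻¹ • m := by rw [hk, smul_smul, inv_mul_cancel₀ hk0, one_smul]
    rw [this]
    exact (Sn c d).smul_mem _ hmcd
  obtain ⟨b'', hPl, hSn, hiff⟩ := hS4U F c d u hcd hucd hu0
  rw [← hSn] at hfcd
  obtain ⟨α, β, hαβ⟩ := Submodule.mem_span_pair.mp hfcd
  have hue : B u e = 0 := S4S_ti u b u e h1.1 (Submodule.subset_span (by simp)) he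
  have hβ : β ≠ 0 := by
    rintro rfl
    apply hfe
    rw [← hαβ, zero_smul, add_zero, S4S_sl, hue, mul_zero]
  have hA' : IsA u b'' (x t0) := (hiff _).mp hA
  refine ⟨β⁻¹, inv_ne_zero hβ, fun t ht => ?_⟩
  have htt : t = t0 := (huni e e t t0).1 ht ht0
  rw [htt]
  intro w
  have h2 : (2 : F) = 0 := CharTwo.two_eq_zero
  rw [hA' w, ← hαβ, S4S_al, S4S_sl, S4S_sl, S4S_sl]
  ext i
  simp only [Pi.add_apply, Pi.smul_apply, smul_eq_mul]
  field_simp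
  linear_combination (-(α * B u w * u i)) * h2

theorem S4S_nu (hS4B : S4B_stmt) (F : Type) [Field F] [CharP F 2] (x : MulAut (SG F))
    (E1 e2 f2 F1 : Fin 4 → F) (n : F) (hGs : Gs E1 e2 f2 F1)
    (hA1 : ∀ t : SG F, IsT e2 t → IsA E1 f2 (x t)) (hA2 : ∀ t : SG F, IsT f2 t → IsA (n • F1) e2 (x t)) :
    n = 1 := by
  have h2 : (2 : F) = 0 := CharTwo.two_eq_zero
  obtain ⟨g11, hBe2f2, g12, g13, g14, g15⟩ := hGs
  obtain ⟨-, -, -, -, hexT, -⟩ := hS4B F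
  obtain ⟨tE, htE, -⟩ := hexT e2
  obtain ⟨tF, htF, -⟩ := hexT f2
  have hAE : IsA E1 f2 (x tE) := hA1 tE htE
  have hAF : IsA (n • F1) e2 (x tF) := hA2 tF htF
  have hmul : ∀ (g h : SG F) (w : Fin 4 → F), ((g * h : SG F) : (Fin 4 → F) ≃ₗ[F] (Fin 4 → F)) w =
      (g : (Fin 4 → F) ≃ₗ[F] (Fin 4 → F)) ((h : (Fin 4 → F) ≃ₗ[F] (Fin 4 → F)) w) :=
    fun g h w => rfl
  have hcube : (tE * tF) ^ 3 = 1 := by
    apply Subtype.ext
    apply LinearEquiv.ext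
    intro w
    have h1w : ((1 : SG F) : (Fin 4 → F) ≃ₗ[F] (Fin 4 → F)) w = w := rfl
    rw [h1w, pow_succ, pow_succ, pow_one]
    simp only [hmul]
    have hQ : ∀ w, (tE : (Fin 4 → F) ≃ₗ[F] (Fin 4 → F)) ((tF : (Fin 4 → F) ≃ₗ[F] (Fin 4 → F)) w) =
        w + (B f2 w • f2 + (B e2 w + B f2 w) • e2) := by
      intro w
      rw [htF w, htE, S4S_ar, S4S_sr, hBe2f2, mul_one]
      abel
    have hp : ∀ w, B e2 (w + (B f2 w • f2 + (B e2 w + B f2 w) • e2)) = B e2 w + B f2 w := by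
      intro w
      rw [S4S_ar, S4S_ar, S4S_sr, S4S_sr, hBe2f2, S4S_s]
      ring
    have hq : ∀ w, B f2 (w + (B f2 w • f2 + (B e2 w + B f2 w) • e2)) = B e2 w := by
      intro w
      rw [S4S_ar, S4S_ar, S4S_sr, S4S_sr, S4S_s, S4S_c f2 e2, hBe2f2]
      linear_combination (B f2 w) * h2
    have hstep : ∀ w : Fin 4 → F, ∀ p q : F, B e2 w = p → B f2 w = q →
        (tE : (Fin 4 → F) ≃ₗ[F] (Fin 4 → F)) ((tF : (Fin 4 → F) ≃ₗ[F] (Fin 4 → F)) w) =
          w + (q • f2 + (p + q) • e2) ∧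
        B e2 (w + (q • f2 + (p + q) • e2)) = p + q ∧ B f2 (w + (q • f2 + (p + q) • e2)) = p := by
      rintro w p q rfl rfl
      exact ⟨hQ w, hp w, hq w⟩
    obtain ⟨a1, a2, a3⟩ := hstep w _ _ rfl rfl
    obtain ⟨c1, c2, c3⟩ := hstep _ _ _ a2 a3
    obtain ⟨d1, d2, d3⟩ := hstep _ _ _ c2 c3
    rw [a1, c1, d1]
    ext i
    simp only [Pi.add_apply, Pi.smul_apply, smul_eq_mul]
    linear_combination ((B f2 w + B e2 w) * f2 i + (3 * B e2 w + 2 * B f2 w) * e2 i) * h2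
  have hP3 : (x tE * x tF) ^ 3 = 1 := by
    rw [← map_mul, ← map_pow, hcube, map_one]
  have hPE : ∀ a b : F, (x tE : (Fin 4 → F) ≃ₗ[F] (Fin 4 → F))
      ((x tF : (Fin 4 → F) ≃ₗ[F] (Fin 4 → F)) (a • E1 + b • e2)) =
      ((1 + n) * a + b) • E1 + (n * a + b) • e2 := by
    intro a b
    have s1 : (x tF : (Fin 4 → F) ≃ₗ[F] (Fin 4 → F)) (a • E1 + b • e2) =
        a • E1 + (b + n * a) • e2 := by
      rw [hAF, S4S_ar, S4S_sr, S4S_sr, S4S_c e2 E1, g12, S4S_s, S4S_sl, S4S_ar, S4S_sr, S4S_sr,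
        S4S_c F1 E1, g11, S4S_c F1 e2, g14]
      ext i
      simp only [Pi.add_apply, Pi.smul_apply, smul_eq_mul]
      ring
    rw [s1, hAE, S4S_ar, S4S_sr, S4S_sr, S4S_c f2 E1, g13, S4S_c f2 e2, hBe2f2, S4S_ar, S4S_sr,
      S4S_sr, S4S_s, g12]
    ext i
    simp only [Pi.add_apply, Pi.smul_apply, smul_eq_mul]
    ring
  have h3 := congrArg (fun g : SG F => (g : (Fin 4 → F) ≃ₗ[F] (Fin 4 → F)) e2) hP3
  have h4 : (((x tE * x tF) ^ 3 : SG F) : (Fin 4 → F) ≃ₗ[F] (Fin 4 → F)) e2 = e2 := h3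
  rw [pow_succ, pow_succ, pow_one] at h4
  simp only [hmul] at h4
  have h5 : e2 = (0 : F) • E1 + (1 : F) • e2 := by rw [zero_smul, one_smul, zero_add]
  rw [h5, hPE, hPE, hPE] at h4
  have h6 := congrArg (fun w => B w F1) h4
  simp only [S4S_al, S4S_sl, g11, g14] at h6
  have h7 : (n + 1) * (n + 1) = 0 := by
    linear_combination h6 - (1 + n) * h2
  have h8 : n + 1 = 0 := mul_self_eq_zero.mp h7
  linear_combination h8 - h2

theorem S4S (hS4B : S4B_stmt) (hS4U : S4U_stmt) (hS4W : S4W_stmt) (hS4X : S4X_stmt) (hS4M : S4M_stmt) (hS4F : S4F_stmt) (hS4O : S4O_stmt) : S4S_stmt := by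
  intro F _ _ _ x hx hxx
  have h2 : (2 : F) = 0 := CharTwo.two_eq_zero
  obtain ⟨u1, b1, hF1, -⟩ := hS4F F x hx hxx (Pi.single 0 1) (by
    intro h
    have := congrFun h 0
    simp at this)
  obtain ⟨w2, w1, hw⟩ := (hS4W F).2.2.1 u1 b1 hF1.1
  have hw1 : B u1 w1 = 1 := hw.1
  have hw1n : w1 ∉ Sn u1 b1 := by
    intro hmem
    have := S4S_ti u1 b1 u1 w1 hF1.1 (Submodule.subset_span (by simp)) hmem
    rw [hw1] at this
    exact one_ne_zero this
  have hw10 : w1 ≠ 0 := by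
    rintro rfl
    exact hw1n (Sn u1 b1).zero_mem
  obtain ⟨u2, b2, hF2, hv⟩ := hS4F F x hx hxx w1 hw10
  have hne : Sn u1 b1 ≠ Sn u2 b2 := by
    intro h
    exact hw1n (h ▸ hv)
  obtain ⟨hκ, hint⟩ := hS4O F x hx hxx u1 b1 u2 b2 hF1 hF2 hne
  have hu1b1 : B u1 b1 = 0 := hF1.1.2
  have hu2b2 : B u2 b2 = 0 := hF2.1.2
  -- the vectors
  set κ := B u1 u2 with hκdef
  set g1 : Fin 4 → F := κ⁻¹ • u2 with hg1
  set e2 : Fin 4 → F := b1 + B b1 g1 • u1 with he2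
  set b2' : Fin 4 → F := b2 + (B u1 b2 / κ) • u2 with hb2'
  have hBu1g1 : B u1 g1 = 1 := by
    rw [hg1, S4S_sr, ← hκdef, inv_mul_cancel₀ hκ]
  have hBe2g1 : B e2 g1 = 0 := by
    rw [he2, S4S_al, S4S_sl, hBu1g1]
    linear_combination (B b1 g1) * h2
  have hBu1e2 : B u1 e2 = 0 := by
    rw [he2, S4S_ar, S4S_sr, S4S_s, hu1b1]
    ring
  have hBu1b2' : B u1 b2' = 0 := by
    rw [hb2', S4S_ar, S4S_sr, ← hκdef, div_mul_cancel₀ _ hκ]
    linear_combination (B u1 b2) * h2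
  have hBu2b2' : B u2 b2' = 0 := by
    rw [hb2', S4S_ar, S4S_sr, S4S_s, hu2b2]
    ring
  have hb2'mem : b2' ∈ Sn u2 b2 := Submodule.mem_span_pair.mpr ⟨B u1 b2 / κ, 1, by
    rw [hb2', one_smul, add_comm]⟩
  have he2mem : e2 ∈ Sn u1 b1 := Submodule.mem_span_pair.mpr ⟨B b1 g1, 1, by
    rw [he2, one_smul, add_comm]⟩
  have hlin2 := LinearIndependent.pair_iff.mp hF2.1.1
  have hlin1 := LinearIndependent.pair_iff.mp hF1.1.1
  have hb2'0 : b2' ≠ 0 := by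
    intro h
    have := hlin2 (B u1 b2 / κ) 1 (by rw [one_smul, add_comm]; exact h)
    exact one_ne_zero this.2
  have he20 : e2 ≠ 0 := by
    intro h
    have := hlin1 (B b1 g1) 1 (by rw [one_smul, add_comm]; exact h)
    exact one_ne_zero this.2
  have hlam : B e2 b2' ≠ 0 := by
    intro h
    have hb1 : B b1 b2' = 0 := by
      have h' := h
      rw [he2, S4S_al, S4S_sl, hBu1b2', mul_zero, add_zero] at h'
      exact h'
    have := (hS4B F).2.2.2.2.2.2.2.2.2.2.2 u1 b1 b2' hF1.1 hBu1b2' hb1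
    exact hb2'0 (hint b2' this hb2'mem)
  set lam := B e2 b2' with hlamdef
  set f2 : Fin 4 → F := lam⁻¹ • b2' with hf2
  have hBe2f2 : B e2 f2 = 1 := by
    rw [hf2, S4S_sr, ← hlamdef, inv_mul_cancel₀ hlam]
  have hBu1f2 : B u1 f2 = 0 := by
    rw [hf2, S4S_sr, hBu1b2', mul_zero]
  have hBg1f2 : B g1 f2 = 0 := by
    rw [hg1, hf2, S4S_sl, S4S_sr, hBu2b2', mul_zero, mul_zero]
  have hBu2f2 : B u2 f2 = 0 := by
    rw [hf2, S4S_sr, hBu2b2', mul_zero]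
  have hf2mem : f2 ∈ Sn u2 b2 := (Sn u2 b2).smul_mem _ hb2'mem
  have hf20 : f2 ≠ 0 := by
    intro h
    rw [h] at hBe2f2
    simp [B] at hBe2f2
  have hu2g1 : u2 = κ • g1 := by
    rw [hg1, smul_smul, mul_inv_cancel₀ hκ, one_smul]
  have hBe2u2 : B e2 u2 = 0 := by
    rw [hu2g1, S4S_sr, hBe2g1, mul_zero]
  -- images
  obtain ⟨μ, hμ, hμA⟩ := S4S_img hS4B hS4U hS4X hS4M F x hx hxx u1 b1 u2 b2 e2 f2 hF1 hF2 he2mem
    he20 hBe2u2 (by
      intro m hm hBm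
      obtain ⟨p, q, rfl⟩ := Submodule.mem_span_pair.mp hm
      refine ⟨q * lam, ?_⟩
      have hp : p = q * (B u1 b2 / κ) := by
        rw [S4S_ar, S4S_sr, S4S_sr, ← hκdef] at hBm
        field_simp
        linear_combination hBm - (q * B u1 b2) * h2
      rw [hf2, smul_smul, mul_assoc, mul_inv_cancel₀ hlam, mul_one, hb2', smul_add, smul_smul, ← hp]
      exact add_comm _ _)
    (by rw [S4S_c, hBe2f2]; exact one_ne_zero)
  obtain ⟨ν, hν, hνA⟩ := S4S_img hS4B hS4U hS4X hS4M F x hx hxx u2 b2 u1 b1 f2 e2 hF2 hF1 hf2mem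
    hf20 (by rw [S4S_c]; exact hBu1f2) (by
      intro m hm hBm
      obtain ⟨p, q, rfl⟩ := Submodule.mem_span_pair.mp hm
      refine ⟨q, ?_⟩
      have hp : p = q * B b1 g1 := by
        rw [hu2g1, S4S_sl, S4S_ar, S4S_sr, S4S_sr, S4S_c g1 u1, S4S_c g1 b1, hBu1g1] at hBm
        have h3 := (mul_eq_zero.mp hBm).resolve_left hκ
        linear_combination h3 - (q * B b1 g1) * h2
      rw [he2, smul_add, smul_smul, ← hp]
      exact add_comm _ _)
    (by rw [hBe2f2]; exact one_ne_zero)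
  -- rescale
  set E1 : Fin 4 → F := μ • u1 with hE1
  set F1 : Fin 4 → F := μ⁻¹ • g1 with hF1'
  set n : F := ν * κ * μ with hn
  have hνu2 : ν • u2 = n • F1 := by
    have e1 : n * μ⁻¹ = ν * κ := by
      rw [hn, mul_assoc, mul_inv_cancel₀ hμ, mul_one]
    rw [hF1', smul_smul, e1, ← smul_smul, ← hu2g1]
  have g11 : B E1 F1 = 1 := by
    rw [hE1, hF1', S4S_sl, S4S_sr, hBu1g1]
    field_simp
  have g12 : B E1 e2 = 0 := by rw [hE1, S4S_sl, hBu1e2, mul_zero]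
  have g13 : B E1 f2 = 0 := by rw [hE1, S4S_sl, hBu1f2, mul_zero]
  have g14 : B e2 F1 = 0 := by rw [hF1', S4S_sr, hBe2g1, mul_zero]
  have g15 : B F1 f2 = 0 := by rw [hF1', S4S_sl, hBg1f2, mul_zero]
  have hGs : Gs E1 e2 f2 F1 := ⟨g11, hBe2f2, g12, g13, g14, g15⟩
  have hn1 : n = 1 := S4S_nu hS4B F x E1 e2 f2 F1 n hGs hμA (fun t ht => by
    rw [← hνu2]; exact hνA t ht)
  refine ⟨E1, e2, f2, F1, hGs, hμA, fun t ht => ?_⟩
  have := hνA t ht
  rw [hνu2, hn1, one_smul] at this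
  exact this

end Pool.Agent.SP4
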